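import Mathlib

/-!
# Symmetrization and inner functions in the quaternionic Hardy space

A slice regular function `f(q) = ∑ q ^ n a_n` on the unit ball of the quaternions is given by its
coefficient sequence, written as a formal power series over `ℍ[ℝ]`; the product of formal power
series is the `*`-product. For every `m` the functions of `H²(𝔹)` with the inner symmetrization
`q ^ (2 m)` can have any supremum norm in `(1, ∞]`; in particular they need not be bounded.
-/

set_option autoImplicit false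

open MeasureTheory Filter Topology Metric
open scoped Quaternion

namespace Pool.Agent.Results.MP_3b44a3_an.EverySupNorm

noncomputable section

/-- The value `∑ q ^ n a_n` at `q` of the function with the coefficients `a_n`
(coefficients on the right). -/
def ev (f : PowerSeries ℍ[ℝ]) (q : ℍ[ℝ]) : ℍ[ℝ] := ∑' n : ℕ, q ^ n * PowerSeries.coeff n f

/-- `f` is slice regular on the unit ball: the power series converges there. -/
def SliceRegular (f : PowerSeries ℍ[ℝ]) : Prop :=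
  ∀ q : ℍ[ℝ], ‖q‖ < 1 → Summable fun n : ℕ => q ^ n * PowerSeries.coeff n f

/-- The Hardy space `H²(𝔹)`: the coefficients are square summable. -/
def MemH2 (f : PowerSeries ℍ[ℝ]) : Prop := Summable fun n : ℕ => ‖PowerSeries.coeff n f‖ ^ 2

/-- The space `H^∞(𝔹)`: slice regular and bounded on the unit ball. -/
def MemHinf (f : PowerSeries ℍ[ℝ]) : Prop :=
  SliceRegular f ∧ ∃ M : ℝ, ∀ q : ℍ[ℝ], ‖q‖ < 1 → ‖ev f q‖ ≤ M

/-- The `*`-product: the `n`-th coefficient is `∑_{k ≤ n} a_k b_{n-k}`. -/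
def starMul (f g : PowerSeries ℍ[ℝ]) : PowerSeries ℍ[ℝ] :=
  PowerSeries.mk fun n => ∑ k ∈ Finset.range (n + 1),
    PowerSeries.coeff k f * PowerSeries.coeff (n - k) g

/-- The conjugate `f^c`, with coefficients the quaternionic conjugates of those of `f`. -/
def conjC (f : PowerSeries ℍ[ℝ]) : PowerSeries ℍ[ℝ] :=
  PowerSeries.mk fun n => star (PowerSeries.coeff n f)

/-- The symmetrization `f^s = f^c * f` (`*`-product). -/
def symm (f : PowerSeries ℍ[ℝ]) : PowerSeries ℍ[ℝ] := starMul (conjC f) f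

/-- The imaginary unit `x i + y j + z k` for a point `(x, y, z)` of the unit sphere of `ℝ³`. -/
def unitIm (v : sphere (0 : EuclideanSpace ℝ (Fin 3)) 1) : ℍ[ℝ] :=
  ⟨0, (v : EuclideanSpace ℝ (Fin 3)) 0, (v : EuclideanSpace ℝ (Fin 3)) 1,
    (v : EuclideanSpace ℝ (Fin 3)) 2⟩

/-- The point `e^{t I} = cos t + sin t I` of `∂𝔹`, `I` the imaginary unit given by `v`. -/
def bd (v : sphere (0 : EuclideanSpace ℝ (Fin 3)) 1) (t : ℝ) : ℍ[ℝ] :=
  (Real.cos t : ℍ[ℝ]) + Real.sin t • unitIm v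

/-- The measure `dσ(I) dt` on the pairs `(I, t)`, `0 < t ≤ 2π`, `σ` the area measure of the unit
sphere of `ℝ³`. Its image under `(I, t) ↦ e^{t I}` is `Σ` up to the normalization. -/
def Sig : Measure (sphere (0 : EuclideanSpace ℝ (Fin 3)) 1 × ℝ) :=
  ((volume : Measure (EuclideanSpace ℝ (Fin 3))).toSphere).prod
    (volume.restrict (Set.Ioc 0 (2 * Real.pi)))

/-- Inner functions: `φ ∈ H^∞(𝔹)`, `|φ| ≤ 1` on `𝔹`, and for `Σ`-almost every boundary point the
boundary value (the radial limit) has modulus one. -/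
def IsInner (f : PowerSeries ℍ[ℝ]) : Prop :=
  MemHinf f ∧ (∀ q : ℍ[ℝ], ‖q‖ < 1 → ‖ev f q‖ ≤ 1) ∧
    ∀ᵐ x ∂Sig, ∃ L : ℍ[ℝ], ‖L‖ = 1 ∧
      Tendsto (fun r : ℝ => ev f (r • bd x.1 x.2)) (𝓝[<] 1) (𝓝 L)

/-! ### Preliminaries (from the library) -/

lemma starMul_eq (f g : PowerSeries ℍ[ℝ]) : starMul f g = f * g := by
  ext n : 1
  rw [starMul, PowerSeries.coeff_mk, PowerSeries.coeff_mul,
    Finset.Nat.sum_antidiagonal_eq_sum_range_succ
      (fun k l => PowerSeries.coeff k f * PowerSeries.coeff l g)]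

lemma norm_coeC (z : ℂ) : ‖(z : ℍ[ℝ])‖ = ‖z‖ := by
  have h1 : ‖(z : ℍ[ℝ])‖ * ‖(z : ℍ[ℝ])‖ = ‖z‖ * ‖z‖ := by
    rw [← Quaternion.normSq_eq_norm_mul_self, ← sq ‖z‖, ← Complex.normSq_eq_norm_sq]
    simp [Quaternion.normSq_def', Complex.normSq_apply]
    ring
  nlinarith [norm_nonneg z, norm_nonneg (z : ℍ[ℝ]), h1]

/-- The inclusion `ℂ → ℍ` as a ring homomorphism. -/
def inc : ℂ →+* ℍ[ℝ] := (Quaternion.ofComplex : ℂ →ₐ[ℝ] ℍ[ℝ]).toRingHom

lemma inc_apply (z : ℂ) : inc z = (z : ℍ[ℝ]) := rfl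

lemma norm_bd (v : sphere (0 : EuclideanSpace ℝ (Fin 3)) 1) (t : ℝ) : ‖bd v t‖ = 1 := by
  have hv : (v : EuclideanSpace ℝ (Fin 3)) 0 ^ 2 + (v : EuclideanSpace ℝ (Fin 3)) 1 ^ 2 +
      (v : EuclideanSpace ℝ (Fin 3)) 2 ^ 2 = 1 := by
    have h1 : ‖(v : EuclideanSpace ℝ (Fin 3))‖ = 1 := norm_eq_of_mem_sphere v
    have h2 := EuclideanSpace.norm_sq_eq (v : EuclideanSpace ℝ (Fin 3))
    rw [h1, Fin.sum_univ_three] at h2
    simp only [Real.norm_eq_abs, sq_abs] at h2
    linarith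
  have h : ‖bd v t‖ * ‖bd v t‖ = 1 := by
    rw [← Quaternion.normSq_eq_norm_mul_self, Quaternion.normSq_def']
    have e0 : (bd v t).re = Real.cos t + Real.sin t * 0 := rfl
    have e1 : (bd v t).imI = 0 + Real.sin t * (v : EuclideanSpace ℝ (Fin 3)) 0 := rfl
    have e2 : (bd v t).imJ = 0 + Real.sin t * (v : EuclideanSpace ℝ (Fin 3)) 1 := rfl
    have e3 : (bd v t).imK = 0 + Real.sin t * (v : EuclideanSpace ℝ (Fin 3)) 2 := rfl
    rw [e0, e1, e2, e3]
    have h3 := Real.sin_sq_add_cos_sq t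
    linear_combination (Real.sin t ^ 2) * hv + h3
  nlinarith [norm_nonneg (bd v t)]

lemma ev_X_pow (k : ℕ) (q : ℍ[ℝ]) : ev (PowerSeries.X ^ k) q = q ^ k := by
  rw [ev, tsum_eq_single k]
  · simp [PowerSeries.coeff_X_pow]
  · intro n hn
    simp [PowerSeries.coeff_X_pow, hn]

lemma inner_X_pow (k : ℕ) : IsInner (PowerSeries.X ^ k) := by
  have hle : ∀ q : ℍ[ℝ], ‖q‖ < 1 → ‖ev (PowerSeries.X ^ k) q‖ ≤ 1 := by
    intro q hq
    rw [ev_X_pow, norm_pow]
    exact pow_le_one₀ (norm_nonneg _) hq.le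
  refine ⟨⟨fun q _ => ?_, 1, hle⟩, hle, Eventually.of_forall fun x => ?_⟩
  · refine summable_of_ne_finset_zero (s := {k}) fun n hn => ?_
    have : n ≠ k := by simpa using hn
    simp [PowerSeries.coeff_X_pow, this]
  · refine ⟨bd x.1 x.2 ^ k, by rw [norm_pow, norm_bd, one_pow], ?_⟩
    simp only [ev_X_pow]
    have h1 : Tendsto (fun r : ℝ => (r • bd x.1 x.2) ^ k) (𝓝 1) (𝓝 (((1:ℝ) • bd x.1 x.2) ^ k)) := by
      have hc : Continuous fun r : ℝ => (r • bd x.1 x.2) ^ k := by fun_prop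
      exact hc.tendsto 1
    rw [one_smul] at h1
    exact h1.mono_left nhdsWithin_le_nhds


/-! ### The functions `q ^ m * G_*(q c)` -/

/-- `q ^ m * ∑ q ^ n c ^ n g_n` for a complex number `c` and real numbers `g_n`. -/
def fS (m : ℕ) (c : ℂ) (G : PowerSeries ℝ) : PowerSeries ℍ[ℝ] :=
  PowerSeries.map inc (PowerSeries.X ^ m *
    PowerSeries.rescale c (PowerSeries.map Complex.ofRealHom G))

lemma coeff_fS (m : ℕ) (c : ℂ) (G : PowerSeries ℝ) (n : ℕ) : PowerSeries.coeff n (fS m c G) =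
    inc (if m ≤ n then c ^ (n - m) * ((PowerSeries.coeff (n - m) G : ℝ) : ℂ) else 0) := by
  rw [fS, PowerSeries.coeff_map, PowerSeries.coeff_X_pow_mul']
  split_ifs <;> simp [PowerSeries.coeff_rescale]

lemma norm_coeff_fS (m : ℕ) {c : ℂ} (hc : ‖c‖ = 1) {G : PowerSeries ℝ}
    (hG : ∀ n, 0 ≤ PowerSeries.coeff n G) (n : ℕ) : ‖PowerSeries.coeff n (fS m c G)‖ =
    if m ≤ n then PowerSeries.coeff (n - m) G else 0 := by
  rw [coeff_fS, inc_apply, norm_coeC]
  split_ifs
  · rw [norm_mul, norm_pow, hc, one_pow, one_mul, Complex.norm_real, Real.norm_eq_abs,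
      abs_of_nonneg (hG _)]
  · simp

lemma conjC_fS (m : ℕ) (c : ℂ) (G : PowerSeries ℝ) : conjC (fS m c G) = fS m (starRingEnd ℂ c) G := by
  ext n : 1
  rw [conjC, PowerSeries.coeff_mk, coeff_fS, coeff_fS, inc_apply, inc_apply]
  have h : ∀ z : ℂ, star (z : ℍ[ℝ]) = ((starRingEnd ℂ z : ℂ) : ℍ[ℝ]) := by
    intro z
    ext <;> simp
  rw [h]
  split_ifs
  · simp
  · simp

lemma rescale_mul_rescale {G : PowerSeries ℝ} (hG : G * PowerSeries.rescale (-1) G = 1) (c : ℂ) :
    PowerSeries.rescale c (PowerSeries.map Complex.ofRealHom G) *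
      PowerSeries.rescale (-c) (PowerSeries.map Complex.ofRealHom G) = 1 := by
  have h1 : PowerSeries.rescale (-c) (PowerSeries.map Complex.ofRealHom G) =
      PowerSeries.rescale c (PowerSeries.map Complex.ofRealHom (PowerSeries.rescale (-1) G)) := by
    ext n
    simp only [PowerSeries.coeff_rescale, PowerSeries.coeff_map, map_mul, map_pow, map_neg, map_one]
    rw [neg_pow c]
    ring
  rw [h1, ← map_mul, ← map_mul, hG, map_one, map_one]

lemma symm_fS (m : ℕ) {G : PowerSeries ℝ} (hG : G * PowerSeries.rescale (-1) G = 1) :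
    symm (fS m Complex.I G) = PowerSeries.X ^ (2 * m) := by
  rw [symm, conjC_fS, starMul_eq, fS, fS, ← map_mul, Complex.conj_I]
  have h := rescale_mul_rescale hG Complex.I
  set A := PowerSeries.rescale Complex.I (PowerSeries.map Complex.ofRealHom G)
  set B := PowerSeries.rescale (-Complex.I) (PowerSeries.map Complex.ofRealHom G)
  have h2 : (PowerSeries.X : PowerSeries ℂ) ^ m * B * (PowerSeries.X ^ m * A) =
      PowerSeries.X ^ (2 * m) := by
    calc (PowerSeries.X : PowerSeries ℂ) ^ m * B * (PowerSeries.X ^ m * A)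
        = PowerSeries.X ^ (2 * m) * (A * B) := by ring
      _ = _ := by rw [h, mul_one]
  rw [h2, map_pow, PowerSeries.map_X]

lemma symm_fS' (m : ℕ) {G : PowerSeries ℝ} (hG : G * PowerSeries.rescale (-1) G = 1) :
    starMul (fS m Complex.I G) (conjC (fS m Complex.I G)) = PowerSeries.X ^ (2 * m) := by
  rw [conjC_fS, starMul_eq, fS, fS, ← map_mul, Complex.conj_I]
  have h := rescale_mul_rescale hG Complex.I
  set A := PowerSeries.rescale Complex.I (PowerSeries.map Complex.ofRealHom G)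
  set B := PowerSeries.rescale (-Complex.I) (PowerSeries.map Complex.ofRealHom G)
  have h2 : (PowerSeries.X : PowerSeries ℂ) ^ m * A * (PowerSeries.X ^ m * B) =
      PowerSeries.X ^ (2 * m) := by
    calc (PowerSeries.X : PowerSeries ℂ) ^ m * A * (PowerSeries.X ^ m * B)
        = PowerSeries.X ^ (2 * m) * (A * B) := by ring
      _ = _ := by rw [h, mul_one]
  rw [h2, map_pow, PowerSeries.map_X]

lemma memH2_fS (m : ℕ) {c : ℂ} (hc : ‖c‖ = 1) {G : PowerSeries ℝ}
    (hG : ∀ n, 0 ≤ PowerSeries.coeff n G) (h2 : Summable fun n => PowerSeries.coeff n G ^ 2) :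
    MemH2 (fS m c G) := by
  unfold MemH2
  rw [← summable_nat_add_iff m]
  refine h2.congr fun n => ?_
  rw [norm_coeff_fS m hc hG]
  simp

/-- the bounds on the ball -/
lemma bound_fS (m : ℕ) {c : ℂ} (hc : ‖c‖ = 1) {G : PowerSeries ℝ}
    (hG : ∀ n, 0 ≤ PowerSeries.coeff n G) {r : ℝ} (hr0 : 0 ≤ r) (hr1 : r < 1)
    (hs : Summable fun n => PowerSeries.coeff n G * r ^ n) (q : ℍ[ℝ]) (hq : ‖q‖ = r) :
    Summable (fun n : ℕ => q ^ n * PowerSeries.coeff n (fS m c G)) ∧
      ‖ev (fS m c G) q‖ ≤ ∑' n, PowerSeries.coeff n G * r ^ n := by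
  have h1 : Summable (fun n : ℕ => ‖q ^ n * PowerSeries.coeff n (fS m c G)‖) := by
    rw [← summable_nat_add_iff m]
    refine (hs.mul_left (r ^ m)).congr fun n => ?_
    rw [norm_mul, norm_pow, hq, norm_coeff_fS m hc hG]
    simp only [le_add_iff_nonneg_left, zero_le, if_true, Nat.add_sub_cancel]
    ring
  refine ⟨h1.of_norm, ?_⟩
  refine (norm_tsum_le_tsum_norm h1).trans ?_
  rw [← h1.sum_add_tsum_nat_add m]
  have h2 : ∑ i ∈ Finset.range m, ‖q ^ i * PowerSeries.coeff i (fS m c G)‖ = 0 := by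
    refine Finset.sum_eq_zero fun i hi => ?_
    rw [norm_mul, norm_coeff_fS m hc hG, if_neg (by simpa using hi), mul_zero]
  rw [h2, zero_add]
  refine Summable.tsum_le_tsum (fun n => ?_) ((summable_nat_add_iff m).2 h1) hs
  rw [norm_mul, norm_pow, hq, norm_coeff_fS m hc hG]
  simp only [le_add_iff_nonneg_left, zero_le, if_true, Nat.add_sub_cancel]
  have h3 : r ^ (n + m) ≤ r ^ n := pow_le_pow_of_le_one hr0 hr1.le (by omega)
  have := hG n
  nlinarith

lemma ev_fS (m : ℕ) (c z : ℂ) (G : PowerSeries ℝ) {S : ℂ}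
    (h1 : HasSum (fun n : ℕ => (c * z) ^ n * ((PowerSeries.coeff n G : ℝ) : ℂ)) S) :
    ev (fS m c G) (inc z) = inc (z ^ m * S) := by
  have h3 := h1.mul_left (z ^ m)
  have h4 : HasSum (fun n : ℕ => z ^ n * (if m ≤ n then c ^ (n - m) *
      ((PowerSeries.coeff (n - m) G : ℝ) : ℂ) else 0)) (z ^ m * S) := by
    rw [← hasSum_nat_add_iff' m]
    have h4 : ∑ i ∈ Finset.range m, z ^ i * (if m ≤ i then c ^ (i - m) *
        ((PowerSeries.coeff (i - m) G : ℝ) : ℂ) else 0) = 0 := by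
      refine Finset.sum_eq_zero fun i hi => ?_
      rw [if_neg (by simpa using hi), mul_zero]
    rw [h4, sub_zero]
    refine h3.congr_fun ?_ |> id
    intro n
    simp only [le_add_iff_nonneg_left, zero_le, if_true, Nat.add_sub_cancel]
    ring
  have hcont : Continuous inc := by
    have h6 := LinearMap.continuous_of_finiteDimensional
      (Quaternion.ofComplex : ℂ →ₐ[ℝ] ℍ[ℝ]).toLinearMap
    exact h6
  have h7 := h4.map (inc : ℂ →+ ℍ[ℝ]) hcont
  rw [ev]
  refine HasSum.tsum_eq ?_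
  convert h7 using 2 with n
  · rw [coeff_fS]
    simp only [Function.comp_apply]
    change _ = inc _
    rw [map_mul, map_pow]
  · rfl

/-- the value at the worst point -/
lemma value_fS (m : ℕ) {c : ℂ} (hc : ‖c‖ = 1) (hc2 : c ^ 2 = -1) {G : PowerSeries ℝ} {r S : ℝ}
    (hr0 : 0 ≤ r) (hS : HasSum (fun n => PowerSeries.coeff n G * r ^ n) S) (hS0 : 0 ≤ S) :
    ‖inc (-(r : ℂ) * c)‖ = r ∧ ‖ev (fS m c G) (inc (-(r : ℂ) * c))‖ = r ^ m * S := by
  have hn : ‖(-(r : ℂ) * c)‖ = r := by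
    rw [norm_mul, norm_neg, hc, mul_one, Complex.norm_real, Real.norm_eq_abs, abs_of_nonneg hr0]
  refine ⟨by rw [inc_apply, norm_coeC, hn], ?_⟩
  have h1 : HasSum (fun n : ℕ => (c * (-(r : ℂ) * c)) ^ n * ((PowerSeries.coeff n G : ℝ) : ℂ)) (S : ℂ) := by
    have h2 : c * (-(r : ℂ) * c) = r := by
      calc c * (-(r : ℂ) * c) = -(r : ℂ) * c ^ 2 := by ring
        _ = r := by rw [hc2]; ring
    rw [h2]
    have h3 := Complex.hasSum_ofReal.2 hS
    refine h3.congr_fun ?_ |> id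
    intro n
    push_cast
    ring
  rw [ev_fS m c _ G h1, inc_apply, norm_coeC, norm_mul, norm_pow, hn, Complex.norm_real,
    Real.norm_eq_abs, abs_of_nonneg hS0]

/-! ### Finite supremum norm -/

lemma exp_inv (t : ℝ) : PowerSeries.rescale t (PowerSeries.exp ℝ) *
    PowerSeries.rescale (-1) (PowerSeries.rescale t (PowerSeries.exp ℝ)) = 1 := by
  have h1 : PowerSeries.rescale (-1) (PowerSeries.rescale t (PowerSeries.exp ℝ)) =
      PowerSeries.rescale t (PowerSeries.evalNegHom (PowerSeries.exp ℝ)) := by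
    ext n
    simp only [PowerSeries.coeff_rescale, PowerSeries.evalNegHom]
    ring
  rw [h1, ← map_mul, PowerSeries.exp_mul_exp_neg_eq_one, map_one]

lemma coeff_exp_resc (t : ℝ) (n : ℕ) : PowerSeries.coeff n (PowerSeries.rescale t (PowerSeries.exp ℝ)) =
    t ^ n / n.factorial := by
  rw [PowerSeries.coeff_rescale, PowerSeries.coeff_exp]
  simp [div_eq_mul_inv]

lemma hasSum_exp (t r : ℝ) :
    HasSum (fun n => PowerSeries.coeff n (PowerSeries.rescale t (PowerSeries.exp ℝ)) * r ^ n)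
      (Real.exp (t * r)) := by
  have h := NormedSpace.expSeries_div_hasSum_exp (𝔸 := ℝ) (t * r)
  rw [← Real.exp_eq_exp_ℝ] at h
  refine h.congr_fun ?_ |> id
  intro n
  rw [coeff_exp_resc, mul_pow]
  ring

/-- the set of the norms of the values on the unit ball -/
def norms (f : PowerSeries ℍ[ℝ]) : Set ℝ := {x | ∃ q : ℍ[ℝ], ‖q‖ < 1 ∧ x = ‖ev f q‖}

lemma lub_exp (m : ℕ) {c : ℂ} (hc : ‖c‖ = 1) (hc2 : c ^ 2 = -1) {t : ℝ} (ht : 0 < t) :
    IsLUB (norms (fS m c (PowerSeries.rescale t (PowerSeries.exp ℝ)))) (Real.exp t) := by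
  have hG : ∀ n, 0 ≤ PowerSeries.coeff n (PowerSeries.rescale t (PowerSeries.exp ℝ)) := by
    intro n
    rw [coeff_exp_resc]
    positivity
  constructor
  · rintro _ ⟨q, hq, rfl⟩
    have h := (bound_fS m hc hG (norm_nonneg q) hq (hasSum_exp t ‖q‖).summable q rfl).2
    rw [(hasSum_exp t ‖q‖).tsum_eq] at h
    refine h.trans (Real.exp_le_exp.2 ?_)
    nlinarith
  · intro B hB
    have h1 : ∀ r : ℝ, 0 ≤ r → r < 1 → r ^ m * Real.exp (t * r) ≤ B := by
      intro r hr0 hr1
      have h := value_fS m hc hc2 hr0 (hasSum_exp t r) (Real.exp_pos _).le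
      rw [← h.2]
      exact hB ⟨_, by rw [h.1]; exact hr1, rfl⟩
    have hcont : Tendsto (fun r : ℝ => r ^ m * Real.exp (t * r)) (𝓝[<] 1)
        (𝓝 ((1 : ℝ) ^ m * Real.exp (t * 1))) := by
      refine Tendsto.mono_left ?_ nhdsWithin_le_nhds
      exact (by fun_prop : Continuous fun r : ℝ => r ^ m * Real.exp (t * r)).tendsto 1
    rw [one_pow, one_mul, mul_one] at hcont
    refine le_of_tendsto hcont ?_
    have h3 : ∀ᶠ s : ℝ in 𝓝[<] 1, 0 ≤ s := by
      have : ∀ᶠ s : ℝ in 𝓝 1, 0 < s := lt_mem_nhds one_pos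
      exact (this.filter_mono nhdsWithin_le_nhds).mono fun s hs => hs.le
    filter_upwards [h3, self_mem_nhdsWithin] with r hr0 hr1
    exact h1 r hr0 hr1

/-! ### Infinite supremum norm: `((1 + w) / (1 - w)) ^ (1 / 16)` -/

/-- `n` times the coefficients -/
def hh : ℕ → ℝ
  | 0 => 0
  | 1 => 1 / 8
  | (n + 2) => hh (n + 1) / (8 * (n + 1)) + hh n

lemma hh_bounds (n : ℕ) : (0 ≤ hh n ∧ hh n ^ 4 ≤ n) ∧ (1 / 64 ≤ hh (n + 1) ∧ hh (n + 1) ^ 4 ≤ n + 1) ∧
    1 / 64 ≤ hh (n + 2) := by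
  induction n with
  | zero =>
    refine ⟨⟨by simp [hh], by simp [hh]⟩, ⟨by simp [hh]; norm_num, by simp [hh]; norm_num⟩, ?_⟩
    simp [hh]
    norm_num
  | succ n ih =>
    obtain ⟨⟨h1, h2⟩, ⟨h3, h4⟩, h5⟩ := ih
    refine ⟨⟨by linarith, by push_cast; exact h4⟩, ⟨h5, ?_⟩, ?_⟩
    · have hx : (1 : ℝ) ≤ (n : ℝ) + 1 := by
        have : (0 : ℝ) ≤ n := Nat.cast_nonneg n
        linarith
      set s := Real.sqrt (Real.sqrt ((n : ℝ) + 1)) with hs
      have hs0 : 0 ≤ s := Real.sqrt_nonneg _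
      have hs4 : s ^ 4 = (n : ℝ) + 1 := by
        have e1 : s ^ 2 = Real.sqrt ((n : ℝ) + 1) := Real.sq_sqrt (Real.sqrt_nonneg _)
        calc s ^ 4 = (s ^ 2) ^ 2 := by ring
          _ = _ := by rw [e1, Real.sq_sqrt (by linarith)]
      have a1 : hh n ≤ s := by
        refine le_of_pow_le_pow_left₀ (n := 4) (by norm_num) hs0 ?_
        rw [hs4]
        linarith
      have a2 : hh (n + 1) ≤ s := by
        refine le_of_pow_le_pow_left₀ (n := 4) (by norm_num) hs0 ?_
        rw [hs4]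
        exact h4
      have a3 : hh (n + 2) ≤ s * (1 + 1 / ((n : ℝ) + 1) / 8) := by
        have e1 : hh (n + 2) = hh (n + 1) / (8 * ((n : ℝ) + 1)) + hh n := rfl
        have e2 : hh (n + 1) / (8 * ((n : ℝ) + 1)) ≤ s / (8 * ((n : ℝ) + 1)) := by gcongr
        have e3 : s * (1 + 1 / ((n : ℝ) + 1) / 8) = s + s / (8 * ((n : ℝ) + 1)) := by
          field_simp
        rw [e1, e3]
        linarith
      have a4 : hh (n + 2) ^ 4 ≤ (s * (1 + 1 / ((n : ℝ) + 1) / 8)) ^ 4 :=
        pow_le_pow_left₀ (by linarith) a3 4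
      refine a4.trans ?_
      rw [mul_pow, hs4]
      set y := 1 / ((n : ℝ) + 1) with hy
      have hy0 : 0 < y := by positivity
      have hy1 : y ≤ 1 := by
        rw [hy, div_le_one (by linarith)]
        exact hx
      have hxy : ((n : ℝ) + 1) * y = 1 := by
        rw [hy]
        field_simp
      have key : (1 + y / 8) ^ 4 ≤ 1 + y := by
        have e2 : y ^ 2 ≤ y := by nlinarith
        have e3 : y ^ 3 ≤ y := by nlinarith [mul_nonneg hy0.le (sub_nonneg.2 e2)]
        have e4 : y ^ 4 ≤ y := by nlinarith [mul_nonneg hy0.le (sub_nonneg.2 e3)]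
        nlinarith
      push_cast
      calc ((n : ℝ) + 1) * (1 + y / 8) ^ 4 ≤ ((n : ℝ) + 1) * (1 + y) := by gcongr
        _ = (n : ℝ) + 1 + 1 := by rw [mul_add, hxy, mul_one]
    · have e1 : hh (n + 3) = hh (n + 2) / (8 * (((n + 1 : ℕ) : ℝ) + 1)) + hh (n + 1) := rfl
      have e2 : 0 ≤ hh (n + 2) / (8 * (((n + 1 : ℕ) : ℝ) + 1)) := by
        have : 0 ≤ hh (n + 2) := by linarith
        positivity
      show 1 / 64 ≤ hh (n + 3)
      rw [e1]
      linarith

/-- the power series of `((1 + w) / (1 - w)) ^ (1 / 16)` -/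
def GG : PowerSeries ℝ := PowerSeries.mk fun n => if n = 0 then 1 else hh n / n

lemma GG_nonneg (n : ℕ) : 0 ≤ PowerSeries.coeff n GG := by
  rw [GG, PowerSeries.coeff_mk]
  split_ifs
  · norm_num
  · exact div_nonneg (hh_bounds n).1.1 (Nat.cast_nonneg n)

lemma GG_ode : (1 - PowerSeries.X ^ 2) * PowerSeries.derivative ℝ GG =
    PowerSeries.C (1 / 8) * GG := by
  ext n
  rw [sub_mul, one_mul, map_sub, PowerSeries.coeff_derivative, PowerSeries.coeff_C_mul,
    PowerSeries.coeff_X_pow_mul']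
  rcases n with _ | _ | n
  · simp [GG, hh]
  · simp [GG, hh]
    norm_num
  · have hn : (2 : ℕ) ≤ n + 1 + 1 := by omega
    rw [if_pos hn, PowerSeries.coeff_derivative]
    have e0 : n + 1 + 1 - 2 = n := by omega
    rw [e0]
    simp only [GG, PowerSeries.coeff_mk]
    rw [if_neg (by omega), if_neg (by omega), if_neg (by omega)]
    have e1 : hh (n + 1 + 1 + 1) = hh (n + 1 + 1) / (8 * (((n + 1 : ℕ) : ℝ) + 1)) + hh (n + 1) := rfl
    rw [e1]
    push_cast
    have p1 : (n : ℝ) + 1 ≠ 0 := by positivity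
    have p2 : (n : ℝ) + 1 + 1 ≠ 0 := by positivity
    have p3 : (n : ℝ) + 1 + 1 + 1 ≠ 0 := by positivity
    field_simp
    ring

lemma GG_inv : GG * PowerSeries.rescale (-1) GG = 1 := by
  have hX : PowerSeries.rescale (-1 : ℝ) (1 - PowerSeries.X ^ 2) = 1 - PowerSeries.X ^ 2 := by
    rw [map_sub, map_one, map_pow, PowerSeries.rescale_X]
    simp
  have hd : PowerSeries.derivative ℝ (PowerSeries.rescale (-1) GG) =
      - PowerSeries.rescale (-1) (PowerSeries.derivative ℝ GG) := by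
    ext n
    rw [map_neg, PowerSeries.coeff_derivative, PowerSeries.coeff_rescale, PowerSeries.coeff_rescale,
      PowerSeries.coeff_derivative]
    ring
  have h2 : (1 - PowerSeries.X ^ 2) * PowerSeries.derivative ℝ (PowerSeries.rescale (-1) GG) =
      - (PowerSeries.C (1 / 8) * PowerSeries.rescale (-1) GG) := by
    rw [hd, mul_neg]
    congr 1
    have := congrArg (PowerSeries.rescale (-1 : ℝ)) GG_ode
    rw [map_mul, map_mul, hX] at this
    rw [this]
    congr 1
    ext n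
    rw [PowerSeries.coeff_rescale, PowerSeries.coeff_C]
    split_ifs with h
    · simp [h]
    · simp
  have hne : (1 - PowerSeries.X ^ 2 : PowerSeries ℝ) ≠ 0 := by
    intro h
    have := congrArg (PowerSeries.coeff 0) h
    simp at this
  apply PowerSeries.derivative.ext
  · have h3 : (1 - PowerSeries.X ^ 2) *
        PowerSeries.derivative ℝ (GG * PowerSeries.rescale (-1) GG) = 0 := by
      rw [Derivation.leibniz, smul_eq_mul, smul_eq_mul, mul_add]
      calc (1 - PowerSeries.X ^ 2) * (GG * PowerSeries.derivative ℝ (PowerSeries.rescale (-1) GG)) +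
          (1 - PowerSeries.X ^ 2) * (PowerSeries.rescale (-1) GG * PowerSeries.derivative ℝ GG)
          = GG * ((1 - PowerSeries.X ^ 2) * PowerSeries.derivative ℝ (PowerSeries.rescale (-1) GG)) +
            PowerSeries.rescale (-1) GG * ((1 - PowerSeries.X ^ 2) * PowerSeries.derivative ℝ GG) := by
            ring
        _ = 0 := by
            rw [h2, GG_ode]
            ring
    rw [(mul_eq_zero.1 h3).resolve_left hne]
    simp
  · rw [map_mul, ← PowerSeries.coeff_zero_eq_constantCoeff_apply,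
      ← PowerSeries.coeff_zero_eq_constantCoeff_apply, PowerSeries.coeff_rescale]
    simp [GG]

lemma GG_sq_summable : Summable fun n => PowerSeries.coeff n GG ^ 2 := by
  rw [← summable_nat_add_iff 1]
  have h1 : Summable fun n : ℕ => 1 / (n : ℝ) ^ (3 / 2 : ℝ) :=
    Real.summable_one_div_nat_rpow.2 (by norm_num)
  refine Summable.of_nonneg_of_le (fun n => by positivity) (fun n => ?_)
    ((summable_nat_add_iff 1).2 h1)
  simp only [GG, PowerSeries.coeff_mk]
  rw [if_neg (by omega)]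
  have hx : (0 : ℝ) < ((n + 1 : ℕ) : ℝ) := by positivity
  set x : ℝ := ((n + 1 : ℕ) : ℝ) with hxd
  have h4 : hh (n + 1) ^ 4 ≤ x := by
    rw [hxd]
    push_cast
    exact (hh_bounds n).2.1.2
  have h2 : hh (n + 1) ^ 2 ≤ x ^ (1 / 2 : ℝ) := by
    rw [← Real.sqrt_eq_rpow]
    apply Real.le_sqrt_of_sq_le
    calc (hh (n + 1) ^ 2) ^ 2 = hh (n + 1) ^ 4 := by ring
      _ ≤ x := h4
  rw [div_pow, div_le_div_iff₀ (by positivity) (by positivity)]
  have h5 : x ^ (3 / 2 : ℝ) * x ^ (1 / 2 : ℝ) = x ^ 2 := by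
    rw [← Real.rpow_add hx]
    norm_num
  calc hh (n + 1) ^ 2 * x ^ (3 / 2 : ℝ) ≤ x ^ (1 / 2 : ℝ) * x ^ (3 / 2 : ℝ) := by gcongr
    _ = 1 * x ^ 2 := by rw [mul_comm, h5, one_mul]

lemma GG_le (n : ℕ) : PowerSeries.coeff n GG ≤ 1 := by
  simp only [GG, PowerSeries.coeff_mk]
  split_ifs with h
  · exact le_rfl
  · have hn : (1 : ℝ) ≤ n := by exact_mod_cast Nat.one_le_iff_ne_zero.2 h
    rw [div_le_one (by linarith)]
    refine le_of_pow_le_pow_left₀ (n := 4) (by norm_num) (by linarith) ((hh_bounds n).1.2.trans ?_)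
    calc (n : ℝ) = n * 1 := by ring
      _ ≤ n * n ^ 3 := by
          gcongr
          exact one_le_pow₀ hn
      _ = (n : ℝ) ^ 4 := by ring

lemma GG_summable {r : ℝ} (hr0 : 0 ≤ r) (hr1 : r < 1) :
    Summable fun n => PowerSeries.coeff n GG * r ^ n := by
  refine Summable.of_nonneg_of_le (fun n => mul_nonneg (GG_nonneg n) (by positivity)) (fun n => ?_)
    (summable_geometric_of_lt_one hr0 hr1)
  exact mul_le_of_le_one_left (by positivity) (GG_le n)

lemma GG_not_summable : ¬ Summable fun n => PowerSeries.coeff n GG := by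
  intro h
  rw [← summable_nat_add_iff 1] at h
  have h1 : Summable fun n : ℕ => 1 / (((n + 1 : ℕ)) : ℝ) := by
    refine Summable.of_nonneg_of_le (fun n => by positivity) (fun n => ?_) (h.mul_left 64)
    simp only [GG, PowerSeries.coeff_mk]
    rw [if_neg (by omega)]
    have := (hh_bounds n).2.1.1
    have hx : (0 : ℝ) < ((n + 1 : ℕ) : ℝ) := by positivity
    rw [← mul_div_assoc]
    gcongr
    linarith
  exact Real.not_summable_one_div_natCast ((summable_nat_add_iff 1).1 h1)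

lemma unbounded (m : ℕ) {c : ℂ} (hc : ‖c‖ = 1) (hc2 : c ^ 2 = -1) (B : ℝ) :
    ∃ q : ℍ[ℝ], ‖q‖ < 1 ∧ B < ‖ev (fS m c GG) q‖ := by
  by_contra hcon
  push Not at hcon
  apply GG_not_summable
  refine summable_of_sum_range_le (c := B) GG_nonneg fun N => ?_
  have h1 : ∀ r : ℝ, 0 ≤ r → r < 1 →
      r ^ m * ∑ n ∈ Finset.range N, PowerSeries.coeff n GG * r ^ n ≤ B := by
    intro r hr0 hr1
    have hs := GG_summable hr0 hr1
    have hpos : ∀ n, 0 ≤ PowerSeries.coeff n GG * r ^ n := fun n =>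
      mul_nonneg (GG_nonneg n) (by positivity)
    have h := value_fS m hc hc2 hr0 hs.hasSum (tsum_nonneg hpos)
    refine le_trans ?_ (hcon _ (by rw [h.1]; exact hr1))
    rw [h.2]
    gcongr
    exact hs.sum_le_tsum _ fun n _ => hpos n
  have hcont : Tendsto (fun r : ℝ => r ^ m * ∑ n ∈ Finset.range N, PowerSeries.coeff n GG * r ^ n)
      (𝓝[<] 1) (𝓝 ((1 : ℝ) ^ m * ∑ n ∈ Finset.range N, PowerSeries.coeff n GG * (1 : ℝ) ^ n)) := by
    refine Tendsto.mono_left ?_ nhdsWithin_le_nhds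
    exact (by fun_prop : Continuous fun r : ℝ =>
      r ^ m * ∑ n ∈ Finset.range N, PowerSeries.coeff n GG * r ^ n).tendsto 1
  simp only [one_pow, one_mul, mul_one] at hcont
  refine le_of_tendsto hcont ?_
  have h3 : ∀ᶠ s : ℝ in 𝓝[<] 1, 0 ≤ s := by
    have : ∀ᶠ s : ℝ in 𝓝 1, 0 < s := lt_mem_nhds one_pos
    exact (this.filter_mono nhdsWithin_le_nhds).mono fun s hs => hs.le
  filter_upwards [h3, self_mem_nhdsWithin] with r hr0 hr1
  exact h1 r hr0 hr1

/-- **The functions of `H²(𝔹)` with a given inner symmetrization.** Let `m` be a natural number.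
(1) For every real number `M > 1` there is `f ∈ H^∞(𝔹)` with `f^s = f^c * f = f * f^c = q ^ (2 m)`, an
inner function, such that the suprema of `|f|` and of `|f^c|` on the ball are both equal to `M`; so
neither `f` nor `f^c` is inner.
(2) There is `f ∈ H²(𝔹)` with `f^s = f^c * f = f * f^c = q ^ (2 m)` such that neither `f` nor `f^c` is
bounded on the ball, so that neither of them is in `H^∞(𝔹)`. -/
theorem result (m : ℕ) :
    (∀ M : ℝ, 1 < M → ∃ f : PowerSeries ℍ[ℝ], MemH2 f ∧ MemHinf f ∧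
      symm f = starMul f (conjC f) ∧ (∀ q : ℍ[ℝ], ev (symm f) q = q ^ (2 * m)) ∧ IsInner (symm f) ∧
      IsLUB (norms f) M ∧ IsLUB (norms (conjC f)) M ∧ ¬ IsInner f ∧ ¬ IsInner (conjC f)) ∧
    ∃ f : PowerSeries ℍ[ℝ], MemH2 f ∧ SliceRegular f ∧
      symm f = starMul f (conjC f) ∧ (∀ q : ℍ[ℝ], ev (symm f) q = q ^ (2 * m)) ∧ IsInner (symm f) ∧
      ¬ MemHinf f ∧ ¬ MemHinf (conjC f) ∧ ¬ IsInner f ∧ ¬ IsInner (conjC f) := by
  constructor
  · intro M hM
    have ht : 0 < Real.log M := Real.log_pos hM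
    have hexp : Real.exp (Real.log M) = M := Real.exp_log (by linarith)
    set t := Real.log M
    have hG : ∀ n, 0 ≤ PowerSeries.coeff n (PowerSeries.rescale t (PowerSeries.exp ℝ)) := by
      intro n
      rw [coeff_exp_resc]
      positivity
    have hlub := lub_exp m (c := Complex.I) (by simp) (by simp) ht
    have hlub' := lub_exp m (c := -Complex.I) (by simp) (by simp) ht
    rw [hexp] at hlub hlub'
    have hsr : SliceRegular (fS m Complex.I (PowerSeries.rescale t (PowerSeries.exp ℝ))) :=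
      fun q hq => (bound_fS m (by simp) hG (norm_nonneg q) hq (hasSum_exp t ‖q‖).summable q rfl).1
    have hc : conjC (fS m Complex.I (PowerSeries.rescale t (PowerSeries.exp ℝ))) =
        fS m (-Complex.I) (PowerSeries.rescale t (PowerSeries.exp ℝ)) := by
      rw [conjC_fS, Complex.conj_I]
    have hni : ∀ f : PowerSeries ℍ[ℝ], IsLUB (norms f) M → ¬ IsInner f := by
      rintro f hf ⟨-, h, -⟩
      have : M ≤ 1 := hf.2 (by
        rintro _ ⟨q, hq, rfl⟩
        exact h q hq)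
      linarith
    refine ⟨fS m Complex.I (PowerSeries.rescale t (PowerSeries.exp ℝ)), ?_, ⟨hsr, M, fun q hq =>
      hlub.1 ⟨q, hq, rfl⟩⟩, ?_, ?_, ?_, hlub, ?_, hni _ hlub, ?_⟩
    · refine memH2_fS m (by simp) hG ?_
      have h1 : Summable fun n : ℕ => (t ^ 2) ^ n / (n.factorial : ℝ) :=
        Real.summable_pow_div_factorial (t ^ 2)
      refine Summable.of_nonneg_of_le (fun n => by positivity) (fun n => ?_) h1
      rw [coeff_exp_resc, div_pow, ← pow_mul, ← pow_mul, mul_comm n 2]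
      gcongr
      have : (1 : ℝ) ≤ n.factorial := by exact_mod_cast Nat.factorial_pos n
      nlinarith
    · rw [symm_fS m (exp_inv t), symm_fS' m (exp_inv t)]
    · intro q
      rw [symm_fS m (exp_inv t), ev_X_pow]
    · rw [symm_fS m (exp_inv t)]
      exact inner_X_pow _
    · rw [hc]
      exact hlub'
    · rw [hc]
      exact hni _ hlub'
  · have hc : conjC (fS m Complex.I GG) = fS m (-Complex.I) GG := by
      rw [conjC_fS, Complex.conj_I]
    have hnb : ∀ c : ℂ, ‖c‖ = 1 → c ^ 2 = -1 → ¬ MemHinf (fS m c GG) := by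
      rintro c h1 h2 ⟨-, B, hB⟩
      obtain ⟨q, hq, hlt⟩ := unbounded m h1 h2 B
      exact absurd (hB q hq) (not_le.2 hlt)
    refine ⟨fS m Complex.I GG, memH2_fS m (by simp) GG_nonneg GG_sq_summable, fun q hq =>
      (bound_fS m (by simp) GG_nonneg (norm_nonneg q) hq (GG_summable (norm_nonneg q) hq) q rfl).1,
      ?_, ?_, ?_, ?_, ?_, ?_, ?_⟩
    · rw [symm_fS m GG_inv, symm_fS' m GG_inv]
    · intro q
      rw [symm_fS m GG_inv, ev_X_pow]
    · rw [symm_fS m GG_inv]
      exact inner_X_pow _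
    · exact hnb _ (by simp) (by simp)
    · rw [hc]
      exact hnb _ (by simp) (by simp)
    · exact fun h => hnb _ (by simp) (by simp) h.1
    · rw [hc]
      exact fun h => hnb _ (by simp) (by simp) h.1

end

end Pool.Agent.Results.MP_3b44a3_an.EverySupNorm
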